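import Pool.Agent.N534.LL.Law

/-!
# The limit law for bounded continuous functions and for Borel sets
-/

set_option autoImplicit false

namespace Pool.Agent.N534.LL

open Finset MeasureTheory Filter Topology
open Pool.Agent.Y722.HS Pool.Agent.Y722.LS Pool.Agent.N534.LF Pool.Agent.N534.TL

variable {ι : Type} [Fintype ι] [DecidableEq ι]

/-- the law of a function on the box -/
noncomputable def lawM {E : Type} [MeasurableSpace E] (H : ℕ) (X : (ι → ℤ) → E) : Measure E :=
  (((box ι H).card : ENNReal))⁻¹ • ∑ c ∈ box ι H, Measure.dirac (X c)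

theorem box_ne (H : ℕ) : (box ι H).card ≠ 0 := by
  have h1 : (((box ι H).card : ℕ) : ℝ) = (2 * H + 1 : ℝ) ^ Fintype.card ι := card_box H
  have h2 : (0 : ℝ) < (2 * H + 1 : ℝ) ^ Fintype.card ι := by positivity
  intro h
  rw [h] at h1
  simp only [Nat.cast_zero] at h1
  linarith

theorem lawM_apply {E : Type} [MeasurableSpace E] (H : ℕ) (X : (ι → ℤ) → E) (S : Set E) (hS : MeasurableSet S) :
    lawM H X S = (((box ι H).card : ENNReal))⁻¹ * (open Classical in
      ((box ι H).filter (fun c => X c ∈ S)).card : ENNReal) := by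
  classical
  unfold lawM
  rw [Measure.smul_apply, Measure.finsetSum_apply, smul_eq_mul]
  congr 1
  have h1 : ∀ c ∈ box ι H, (Measure.dirac (X c)) S = if X c ∈ S then (1 : ENNReal) else 0 := by
    intro c _
    rw [Measure.dirac_apply' _ hS, Set.indicator_apply]
    rfl
  rw [Finset.sum_congr rfl h1, Finset.sum_ite, Finset.sum_const_zero, add_zero, Finset.sum_const, nsmul_eq_mul,
    mul_one]

instance {E : Type} [MeasurableSpace E] (H : ℕ) (X : (ι → ℤ) → E) : IsProbabilityMeasure (lawM H X) := by
  refine ⟨?_⟩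
  rw [lawM_apply H X _ MeasurableSet.univ]
  simp only [Set.mem_univ, Finset.filter_true]
  exact ENNReal.inv_mul_cancel (by exact_mod_cast box_ne H) (ENNReal.natCast_ne_top _)

theorem integral_lawM {E : Type} [MeasurableSpace E] [TopologicalSpace E] [BorelSpace E] (H : ℕ)
    (X : (ι → ℤ) → E) (F : E → ℝ) (hF : StronglyMeasurable F) :
    ∫ x, F x ∂(lawM H X) = EB H (fun c => F (X c)) := by
  unfold lawM EB
  rw [integral_smul_measure, integral_finsetSum_measure fun c _ => integrable_dirac' hF (by simp)]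
  have h1 : ∀ c ∈ box ι H, ∫ x, F x ∂(Measure.dirac (X c)) = F (X c) := by
    intro c _
    exact integral_dirac' F (X c) hF
  rw [Finset.sum_congr rfl h1, smul_eq_mul]
  have h2 : (((box ι H).card : ENNReal))⁻¹.toReal = ((2 * H + 1 : ℝ) ^ Fintype.card ι)⁻¹ := by
    rw [ENNReal.toReal_inv, ENNReal.toReal_natCast, card_box]
  rw [h2]
  ring

variable {A β : ℝ} {N B : ∀ p : ℕ, (ι → ZMod p) → ℝ} {lam : (ι → ℤ) → ℕ → ℂ → ℂ}

/-- **The limit law.** -/
theorem law (h : Sys A β N B lam) {κ : Type} [Fintype κ] (w : κ → ℂ) (hw : ∀ k, 0 ≤ (w k).re) :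
    ∃ Z : κ → (∀ p : Nat.Primes, ι → ZMod (p : ℕ)) → ℂ,
      (∀ k, Measurable (Z k)) ∧ (∀ k, Integrable (Z k) (PP ι)) ∧
      (∀ k, Tendsto (fun z : ℕ => ∫ ω, ‖Y lam z (w k) ω - Z k ω‖ ∂(PP ι)) atTop (𝓝 0)) ∧
      ∀ u : ℕ → κ → ℂ, (∀ k, Tendsto (fun H => u H k) atTop (𝓝 (w k))) →
        (∀ k, Tendsto (fun H : ℕ => (u H k).re * Real.log H) atTop atTop) →
        ∀ X : ℕ → (ι → ℤ) → κ → ℂ, (∀ᶠ H in atTop, ∀ c ∈ box ι H, ∀ k,
          X H c k = Complex.exp (∑' p : Nat.Primes, lam c p (u H k))) →
        (∀ F : (κ → ℂ) → ℝ, Continuous F → (∃ C : ℝ, ∀ x, |F x| ≤ C) →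
          Tendsto (fun H : ℕ => (∑ c ∈ box ι H, F (X H c)) / (box ι H).card) atTop
            (𝓝 (∫ ω, F (fun k => Complex.exp (Z k ω)) ∂(PP ι)))) ∧
        (∀ E : Set (κ → ℂ), MeasurableSet E →
          (PP ι) {ω | (fun k => Complex.exp (Z k ω)) ∈ frontier E} = 0 →
          Tendsto (fun H : ℕ => (open Classical in ((box ι H).filter (fun c => X H c ∈ E)).card : ℝ) /
            (box ι H).card) atTop
            (𝓝 ((PP ι).real {ω | (fun k => Complex.exp (Z k ω)) ∈ E}))) := by
  classical
  choose Z hZm hZi hZ using fun k => exists_Z h (w k) (hw k)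
  refine ⟨Z, hZm, hZi, fun k => ?_, ?_⟩
  · have h1 : Tendsto (fun z : ℕ => K5 ι A β * (z : ℝ) ^ (-(1 / 4) : ℝ)) atTop (𝓝 0) := by
      simpa using tendsto_rpow_quarter.const_mul (K5 ι A β)
    refine squeeze_zero' (Eventually.of_forall fun z => integral_nonneg fun _ => norm_nonneg _) ?_ h1
    filter_upwards [eventually_ge_atTop 1] with z hz
    exact hZ k z hz
  · intro u hu hul X hX
    have hexp : Continuous (fun x : κ → ℂ => fun k => Complex.exp (x k)) :=
      continuous_pi fun k => Complex.continuous_exp.comp (continuous_apply k)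
    have hZM : Measurable (fun ω (k : κ) => Z k ω) := measurable_pi_lambda _ hZm
    have hEM : Measurable (fun ω (k : κ) => Complex.exp (Z k ω)) := hexp.measurable.comp hZM
    -- weak convergence of the laws of the logarithms
    set μs : ℕ → ProbabilityMeasure (κ → ℂ) := fun H =>
      ⟨lawM H (fun c : ι → ℤ => fun k => ∑' p : Nat.Primes, lam c p (u H k)), inferInstance⟩ with hμs
    have hpm : IsProbabilityMeasure ((PP ι).map (fun ω (k : κ) => Z k ω)) :=
      Measure.isProbabilityMeasure_map hZM.aemeasurable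
    set μ : ProbabilityMeasure (κ → ℂ) := ⟨(PP ι).map (fun ω (k : κ) => Z k ω), hpm⟩ with hμ
    have hconv : Tendsto μs atTop (𝓝 μ) := by
      rw [tendsto_iff_forall_lipschitz_integral_tendsto]
      rintro F hF ⟨L, hL⟩
      have h1 := lip_law h w hw Z hZm hZi hZ u hu hul F hF L hL
      have h2 : ∀ H : ℕ, ∫ x, F x ∂(μs H : Measure (κ → ℂ)) =
          EB H (fun c : ι → ℤ => F (fun k => ∑' p : Nat.Primes, lam c p (u H k))) := fun H =>
        integral_lawM H _ F hL.continuous.stronglyMeasurable
      have h3 : ∫ x, F x ∂(μ : Measure (κ → ℂ)) = ∫ ω, F (fun k => Z k ω) ∂(PP ι) :=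
        integral_map hZM.aemeasurable hL.continuous.aestronglyMeasurable
      rw [h3]
      simpa only [h2] using h1
    -- weak convergence of the laws of the exponentials
    have hexpm : Measurable (fun x : κ → ℂ => fun k => Complex.exp (x k)) := hexp.measurable
    have hconv2 : Tendsto (fun H => (μs H).map hexpm.aemeasurable) atTop (𝓝 (μ.map hexpm.aemeasurable)) :=
      ProbabilityMeasure.tendsto_map_of_tendsto_of_continuous _ _ hconv hexp
    have hmapμ : ((μ.map hexpm.aemeasurable : ProbabilityMeasure (κ → ℂ)) : Measure (κ → ℂ)) =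
        (PP ι).map (fun ω (k : κ) => Complex.exp (Z k ω)) := by
      rw [ProbabilityMeasure.toMeasure_map]
      exact Measure.map_map hexpm hZM
    refine ⟨fun F hF hFb => ?_, fun E hE hEf => ?_⟩
    · obtain ⟨C, hC⟩ := hFb
      let F' : BoundedContinuousFunction (κ → ℂ) ℝ :=
        BoundedContinuousFunction.ofNormedAddCommGroup (fun x => F (fun k => Complex.exp (x k)))
          (hF.comp hexp) C (fun x => by rw [Real.norm_eq_abs]; exact hC _)
      have h1 := (ProbabilityMeasure.tendsto_iff_forall_integral_tendsto.mp hconv) F'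
      have h2 : ∀ H : ℕ, ∫ x, F' x ∂(μs H : Measure (κ → ℂ)) =
          EB H (fun c : ι → ℤ => F (fun k => Complex.exp (∑' p : Nat.Primes, lam c p (u H k)))) := fun H =>
        integral_lawM H _ F' F'.continuous.stronglyMeasurable
      have h3 : ∫ x, F' x ∂(μ : Measure (κ → ℂ)) = ∫ ω, F (fun k => Complex.exp (Z k ω)) ∂(PP ι) :=
        integral_map hZM.aemeasurable F'.continuous.aestronglyMeasurable
      rw [h3] at h1
      simp only [h2] at h1
      refine h1.congr' ?_
      filter_upwards [hX] with H hXH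
      unfold EB
      rw [card_box]
      congr 1
      refine Finset.sum_congr rfl fun c hc => ?_
      have h4 : X H c = (fun k => Complex.exp (∑' p : Nat.Primes, lam c p (u H k))) := funext fun k => hXH c hc k
      rw [h4]
    · have h1 : ((μ.map hexpm.aemeasurable : ProbabilityMeasure (κ → ℂ)) : Measure (κ → ℂ)) (frontier E) = 0 := by
        rw [hmapμ, Measure.map_apply hEM isClosed_frontier.measurableSet]
        exact hEf
      have h2 := ProbabilityMeasure.tendsto_measure_of_null_frontier_of_tendsto' hconv2 h1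
      rw [hmapμ, Measure.map_apply hEM hE] at h2
      have h3 := (ENNReal.tendsto_toReal (measure_ne_top (PP ι) _)).comp h2
      refine h3.congr' ?_
      filter_upwards [hX] with H hXH
      rw [Function.comp_apply, ProbabilityMeasure.toMeasure_map, Measure.map_apply hexpm hE]
      change (lawM H (fun c : ι → ℤ => fun k => ∑' p : Nat.Primes, lam c p (u H k))
        ((fun x : κ → ℂ => fun k => Complex.exp (x k)) ⁻¹' E)).toReal = _
      rw [lawM_apply H _ _ (hexpm hE), ENNReal.toReal_mul, ENNReal.toReal_inv, ENNReal.toReal_natCast,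
        ENNReal.toReal_natCast, mul_comm, div_eq_mul_inv]
      congr 2
      congr 1
      refine Finset.filter_congr fun c hc => ?_
      have h4 : X H c = (fun k => Complex.exp (∑' p : Nat.Primes, lam c p (u H k))) := funext fun k => hXH c hc k
      rw [h4]
      rfl

end Pool.Agent.N534.LL
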