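import Pool.Agent.N534.LL.Limit

/-!
# The limit law
-/

set_option autoImplicit false

namespace Pool.Agent.N534.LL

open Finset MeasureTheory Filter Topology
open Pool.Agent.Y722.HS Pool.Agent.Y722.LS Pool.Agent.N534.LF Pool.Agent.N534.TL

variable {ι : Type} [Fintype ι] [DecidableEq ι]
variable {A β : ℝ} {N B : ∀ p : ℕ, (ι → ZMod p) → ℝ} {lam : (ι → ℤ) → ℕ → ℂ → ℂ}

/-- the distance to the line, cut off at one -/
noncomputable def mr (u : ℂ) : ℝ := min u.re 1

theorem tail_min (hβ : 0 ≤ β) (c : ι → ℤ) (l : ℕ → ℂ → ℂ) (h : Loc β N B c l) {u : ℂ}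
    (hu : 0 < u.re) (y : ℕ) (hy : 1 ≤ y) :
    ‖(∑' p : Nat.Primes, l p u) - ∑ p ∈ PR y, l p u‖ ≤ β * (16 / (mr u * Real.log (y + 1))) := by
  have hm0 : 0 < mr u := lt_min hu one_pos
  have hm1 : mr u ≤ 1 := min_le_right _ _
  have hb : ∀ p : Nat.Primes, ‖l p u‖ ≤ β * ((p : ℕ) : ℝ) ^ (-1 - mr u) := by
    intro p
    refine (h.bound p p.2 u hu.le).trans ?_
    apply mul_le_mul_of_nonneg_left _ hβ
    refine Real.rpow_le_rpow_of_exponent_le (by exact_mod_cast p.2.one_lt.le) ?_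
    have : mr u ≤ u.re := min_le_left _ _
    linarith
  have hg : Summable fun p : Nat.Primes => β * ((p : ℕ) : ℝ) ^ (-1 - mr u) :=
    (summable_primes hm0).mul_left _
  have h1 := h.summable hu
  have h2 := h1.sum_add_tsum_subtype_compl (PS y)
  have h3 : ‖∑' p : {p : Nat.Primes // p ∉ PS y}, l (p : Nat.Primes) u‖ ≤
      β * (16 / (mr u * Real.log (y + 1))) := by
    have h4 : Summable fun p : {p : Nat.Primes // p ∉ PS y} =>
        β * (((p : Nat.Primes) : ℕ) : ℝ) ^ (-1 - mr u) :=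
      hg.comp_injective Subtype.val_injective
    refine (tsum_of_norm_bounded h4.hasSum fun p => hb p.1).trans ?_
    refine h4.tsum_le_of_sum_le fun t => ?_
    rw [← Finset.mul_sum]
    refine mul_le_mul_of_nonneg_left ?_ hβ
    have h5 := tail_le (y + 1) (by omega) (mr u) hm0 hm1
      (t.image (fun p : {p : Nat.Primes // p ∉ PS y} => ((p : Nat.Primes) : ℕ))) (by
        intro q hq
        obtain ⟨p, _, rfl⟩ := Finset.mem_image.mp hq
        refine ⟨p.1.2, ?_⟩
        have h6 : ¬ ((p.1 : Nat.Primes) : ℕ) ≤ y := fun h => p.2 (mem_PS.mpr h)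
        omega)
    have h6 : ∑ q ∈ t.image (fun p : {p : Nat.Primes // p ∉ PS y} => ((p : Nat.Primes) : ℕ)),
        (q : ℝ) ^ (-1 - mr u) = ∑ p ∈ t, (((p : Nat.Primes) : ℕ) : ℝ) ^ (-1 - mr u) :=
      Finset.sum_image (fun a _ b _ h => Subtype.ext (Subtype.ext h))
    rw [h6] at h5
    push_cast at h5
    exact h5
  rw [← h2, sum_PS y (fun p => l p u), add_sub_cancel_left]
  exact h3

/-- the difference of two averages -/
theorem EB_abs_sub (H : ℕ) (f g e : (ι → ℤ) → ℝ) (h : ∀ c, |f c - g c| ≤ e c) :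
    |EB H f - EB H g| ≤ EB H e := by
  have h1 : EB H f ≤ EB H (fun c => g c + e c) :=
    EB_mono H _ _ fun c => by have := abs_le.mp (h c); linarith
  have h2 : EB H g ≤ EB H (fun c => f c + e c) :=
    EB_mono H _ _ fun c => by have := abs_le.mp (h c); linarith
  rw [EB_add] at h1 h2
  exact abs_le.mpr ⟨by linarith, by linarith⟩

section
variable {κ : Type} [Fintype κ]

theorem lip_sum (F : (κ → ℂ) → ℝ) (L : NNReal) (hL : LipschitzWith L F) (x y : κ → ℂ) :
    |F x - F y| ≤ L * ∑ k, ‖x k - y k‖ := by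
  have h1 := hL.dist_le_mul x y
  rw [Real.dist_eq] at h1
  refine h1.trans (mul_le_mul_of_nonneg_left ?_ L.2)
  rw [dist_pi_le_iff (Finset.sum_nonneg fun _ _ => norm_nonneg _)]
  intro k
  rw [dist_eq_norm]
  exact Finset.single_le_sum (f := fun k => ‖x k - y k‖) (fun _ _ => norm_nonneg _) (Finset.mem_univ k)

theorem lip_bdd (F : (κ → ℂ) → ℝ) (hF : ∃ C : ℝ, ∀ x y, dist (F x) (F y) ≤ C) : ∃ C : ℝ, ∀ x, ‖F x‖ ≤ C := by
  obtain ⟨C, hC⟩ := hF
  refine ⟨C + ‖F 0‖, fun x => ?_⟩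
  have h1 := hC x 0
  rw [dist_eq_norm] at h1
  have h2 := norm_add_le (F x - F 0) (F 0)
  rw [sub_add_cancel] at h2
  linarith

theorem int_F (F : (κ → ℂ) → ℝ) (hF : ∃ C : ℝ, ∀ x y, dist (F x) (F y) ≤ C) (L : NNReal)
    (hL : LipschitzWith L F) (X : κ → (∀ p : Nat.Primes, ι → ZMod (p : ℕ)) → ℂ)
    (hX : ∀ k, Measurable (X k)) : Integrable (fun ω => F (fun k => X k ω)) (PP ι) := by
  obtain ⟨C, hC⟩ := lip_bdd F hF
  refine Integrable.of_bound ?_ C (Eventually.of_forall fun ω => hC _)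
  exact (hL.continuous.measurable.comp (measurable_pi_lambda _ hX)).aestronglyMeasurable

/-- replacing the random variable by its partial sum -/
theorem int_close (w : κ → ℂ)
    (Z : κ → (∀ p : Nat.Primes, ι → ZMod (p : ℕ)) → ℂ) (hZm : ∀ k, Measurable (Z k))
    (hZi : ∀ k, Integrable (Z k) (PP ι)) (z : ℕ) (δ : ℝ)
    (hZ : ∀ k, ∫ ω, ‖Y lam z (w k) ω - Z k ω‖ ∂(PP ι) ≤ δ)
    (F : (κ → ℂ) → ℝ) (hF : ∃ C : ℝ, ∀ x y, dist (F x) (F y) ≤ C) (L : NNReal) (hL : LipschitzWith L F) :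
    |(∫ ω, F (fun k => Y lam z (w k) ω) ∂(PP ι)) - ∫ ω, F (fun k => Z k ω) ∂(PP ι)| ≤
      L * (Fintype.card κ * δ) := by
  have i1 := int_F (ι := ι) F hF L hL (fun k => Y lam z (w k)) (fun k => Y_measurable z (w k))
  have i2 := int_F (ι := ι) F hF L hL Z hZm
  rw [← integral_sub i1 i2]
  have i3 : Integrable (fun ω => (L : ℝ) * ∑ k, ‖Y lam z (w k) ω - Z k ω‖) (PP ι) := by
    refine Integrable.const_mul ?_ _
    exact integrable_finsetSum _ fun k _ => ((Y_integrable z (w k)).sub (hZi k)).norm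
  have h1 := norm_integral_le_integral_norm (μ := PP ι)
    (fun ω => F (fun k => Y lam z (w k) ω) - F (fun k => Z k ω))
  rw [Real.norm_eq_abs] at h1
  refine h1.trans ?_
  refine (integral_mono (i1.sub i2).norm i3 fun ω => ?_).trans ?_
  · have := lip_sum F L hL (fun k => Y lam z (w k) ω) (fun k => Z k ω)
    simpa using this
  · have i4 : ∀ k, Integrable (fun ω => ‖Y lam z (w k) ω - Z k ω‖) (PP ι) :=
      fun k => ((Y_integrable z (w k)).sub (hZi k)).norm
    have i5 : ∫ ω, ∑ k, ‖Y lam z (w k) ω - Z k ω‖ ∂(PP ι) = ∑ k, ∫ ω, ‖Y lam z (w k) ω - Z k ω‖ ∂(PP ι) :=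
      integral_finsetSum _ fun k _ => i4 k
    rw [integral_const_mul, i5]
    apply mul_le_mul_of_nonneg_left _ L.2
    refine (Finset.sum_le_sum fun k _ => hZ k).trans ?_
    rw [Finset.sum_const, nsmul_eq_mul, Finset.card_univ]

/-- the change of the partial sums -/
noncomputable def chg (lam : (ι → ℤ) → ℕ → ℂ → ℂ) (z : ℕ) (u w : ℂ) : ℝ :=
  ∑ p ∈ PS z, ∑ r : ι → ZMod (p : ℕ), ‖lam (liftp r) (p : ℕ) u - lam (liftp r) (p : ℕ) w‖

theorem chg_le (h : Sys A β N B lam) (z : ℕ) (u w : ℂ) (c : ι → ℤ) :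
    ‖(∑ p ∈ PR z, lam c p u) - ∑ p ∈ PR z, lam c p w‖ ≤ chg lam z u w := by
  rw [← Finset.sum_sub_distrib, ← sum_PS z (fun p => lam c p u - lam c p w)]
  unfold chg
  refine (norm_sum_le _ _).trans (Finset.sum_le_sum fun p _ => ?_)
  have h2 := h.red (p : ℕ) p.2 (liftp (red (p : ℕ) c)) c (by rw [red_liftp])
  rw [← h2]
  exact Finset.single_le_sum (f := fun r : ι → ZMod (p : ℕ) =>
    ‖lam (liftp r) (p : ℕ) u - lam (liftp r) (p : ℕ) w‖) (fun _ _ => norm_nonneg _)
    (Finset.mem_univ (red (p : ℕ) c))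

theorem chg_tendsto (h : Sys A β N B lam) (z : ℕ) (u : ℕ → ℂ) (w : ℂ) (hw : 0 ≤ w.re)
    (hu : Tendsto u atTop (𝓝 w)) (hu0 : ∀ᶠ H in atTop, 0 ≤ (u H).re) :
    Tendsto (fun H => chg lam z (u H) w) atTop (𝓝 0) := by
  unfold chg
  have h0 : (0 : ℝ) = ∑ p ∈ PS z, ∑ r : ι → ZMod (p : ℕ), (0 : ℝ) := by simp
  rw [h0]
  refine tendsto_finsetSum _ fun p _ => tendsto_finsetSum _ fun r _ => ?_
  have h1 := (h.cont (p : ℕ) p.2 (liftp r)) w hw
  have h2 : Tendsto (fun H => lam (liftp r) (p : ℕ) (u H)) atTop (𝓝 (lam (liftp r) (p : ℕ) w)) := by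
    refine h1.tendsto.comp ?_
    rw [tendsto_nhdsWithin_iff]
    exact ⟨hu, hu0⟩
  have h3 := (h2.sub_const (lam (liftp r) (p : ℕ) w)).norm
  simpa using h3

/-- **The limit law, for bounded Lipschitz functions.** -/
theorem lip_law (h : Sys A β N B lam) (w : κ → ℂ) (hw : ∀ k, 0 ≤ (w k).re)
    (Z : κ → (∀ p : Nat.Primes, ι → ZMod (p : ℕ)) → ℂ) (hZm : ∀ k, Measurable (Z k))
    (hZi : ∀ k, Integrable (Z k) (PP ι))
    (hZ : ∀ k, ∀ z : ℕ, 1 ≤ z →
      ∫ ω, ‖Y lam z (w k) ω - Z k ω‖ ∂(PP ι) ≤ K5 ι A β * (z : ℝ) ^ (-(1 / 4) : ℝ))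
    (u : ℕ → κ → ℂ) (hu : ∀ k, Tendsto (fun H => u H k) atTop (𝓝 (w k)))
    (hul : ∀ k, Tendsto (fun H : ℕ => (u H k).re * Real.log H) atTop atTop)
    (F : (κ → ℂ) → ℝ) (hF : ∃ C : ℝ, ∀ x y, dist (F x) (F y) ≤ C) (L : NNReal) (hL : LipschitzWith L F) :
    Tendsto (fun H : ℕ => EB H (fun c : ι → ℤ => F (fun k => ∑' p : Nat.Primes, lam c p (u H k)))) atTop
      (𝓝 (∫ ω, F (fun k => Z k ω) ∂(PP ι))) := by
  have hlogN : Tendsto (fun H : ℕ => Real.log H) atTop atTop :=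
    Real.tendsto_log_atTop.comp tendsto_natCast_atTop_atTop
  have hpos : ∀ k, ∀ᶠ H : ℕ in atTop, 0 < (u H k).re := by
    intro k
    filter_upwards [(hul k).eventually_gt_atTop 0, hlogN.eventually_gt_atTop 0] with H h1 h2
    exact pos_of_mul_pos_left h1 h2.le
  have hmin : ∀ k, Tendsto (fun H : ℕ => mr (u H k) * Real.log H) atTop atTop := by
    intro k
    rw [tendsto_atTop]
    intro b
    filter_upwards [(hul k).eventually_ge_atTop b, hlogN.eventually_ge_atTop b,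
      hlogN.eventually_ge_atTop 0] with H h1 h2 h3
    rcases min_choice (u H k).re 1 with h4 | h4
    · unfold mr; rw [h4]; exact h1
    · unfold mr; rw [h4, one_mul]; exact h2
  -- the part above `y`
  set T : ℕ → κ → ℝ := fun H k => β * (64 / (mr (u H k) * Real.log H)) with hT
  have hT0 : ∀ k, Tendsto (fun H => T H k) atTop (𝓝 0) := by
    intro k
    have := (Tendsto.const_div_atTop (hmin k) (64 : ℝ)).const_mul β
    simpa using this
  have hK := K5_nonneg (ι := ι) (A := A) (β := β) h.fam.A0 h.beta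
  -- the comparison with the partial sums
  have hcmp : ∀ z : ℕ, 1 ≤ z → ∀ᶠ H : ℕ in atTop,
      |EB H (fun c : ι → ℤ => F (fun k => ∑' p : Nat.Primes, lam c p (u H k))) -
        EB H (fun c : ι → ℤ => F (fun k => ∑ p ∈ PR z, lam c p (w k)))| ≤
      L * ∑ k, (T H k + K5 ι A β * (z : ℝ) ^ (-(1 / 4) : ℝ) + chg lam z (u H k) (w k)) := by
    intro z hz
    have hy_large : ∀ᶠ H : ℕ in atTop, 4 * Real.log (z + 1) ≤ Real.log H :=
      hlogN.eventually_ge_atTop _
    filter_upwards [eventually_ge_atTop 2, hy_large, eventually_all.mpr hpos] with H hH hHz hHu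
    obtain ⟨y, hy1, hy4, hyl⟩ := exists_y H hH
    have hlogH : 0 < Real.log H := Real.log_pos (by exact_mod_cast (by omega : 1 < H))
    have hzy : z ≤ y := by
      have h1 : Real.log (z + 1) ≤ Real.log (y + 1) := by linarith
      have h2 : (z : ℝ) + 1 ≤ y + 1 := (Real.log_le_log_iff (by positivity) (by positivity)).mp h1
      have h3 : (z : ℝ) ≤ y := by linarith
      exact_mod_cast h3
    have hpt : ∀ c : ι → ℤ, |F (fun k => ∑' p : Nat.Primes, lam c p (u H k)) -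
        F (fun k => ∑ p ∈ PR z, lam c p (w k))| ≤
        L * ∑ k, (T H k + ‖∑ p ∈ (PR y).filter (fun p => z < p), lam c p (u H k)‖ +
          chg lam z (u H k) (w k)) := by
      intro c
      refine (lip_sum F L hL _ _).trans (mul_le_mul_of_nonneg_left (Finset.sum_le_sum fun k _ => ?_) L.2)
      have e1 : PR z = (PR y).filter (fun p => ¬ z < p) := by
        ext p
        rw [Finset.mem_filter, mem_PR, mem_PR, not_lt]
        exact ⟨fun h => ⟨⟨h.1.trans hzy, h.2⟩, h.1⟩, fun h => ⟨h.2, h.1.2⟩⟩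
      have e2 := Finset.sum_filter_add_sum_filter_not (PR y) (fun p => z < p) (fun p => lam c p (u H k))
      rw [← e1] at e2
      have e3 : (∑' p : Nat.Primes, lam c p (u H k)) - ∑ p ∈ PR z, lam c p (w k) =
          ((∑' p : Nat.Primes, lam c p (u H k)) - ∑ p ∈ PR y, lam c p (u H k)) +
          (∑ p ∈ (PR y).filter (fun p => z < p), lam c p (u H k)) +
          ((∑ p ∈ PR z, lam c p (u H k)) - ∑ p ∈ PR z, lam c p (w k)) := by
        rw [← e2]
        ring
      rw [e3]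
      refine (norm_add_le _ _).trans (add_le_add ((norm_add_le _ _).trans (add_le_add ?_ le_rfl)) ?_)
      · refine (tail_min h.beta c (lam c) (h.loc c) (hHu k) y hy1).trans ?_
        rw [hT]
        simp only
        apply mul_le_mul_of_nonneg_left _ h.beta
        have hm : 0 < mr (u H k) := lt_min (hHu k) one_pos
        have hly : 0 < Real.log (y + 1) := by linarith
        rw [div_le_div_iff₀ (by positivity) (by positivity)]
        nlinarith
      · exact chg_le h z (u H k) (w k) c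
    refine (EB_abs_sub H _ _ _ hpt).trans ?_
    rw [Pool.Agent.Y722.HS.EB_mul, EB_sum]
    refine mul_le_mul_of_nonneg_left (Finset.sum_le_sum fun k _ => ?_) L.2
    rw [EB_add, EB_add, EB_const, EB_const]
    have := tailL h.fam h.beta lam h.loc (u H k) (hHu k).le H y z hz hy4
    linarith
  rw [Metric.tendsto_atTop']
  intro η hη
  -- the choice of `z`
  set m : ℝ := ((Fintype.card κ : ℕ) : ℝ) with hm
  have hz : ∃ z : ℕ, 1 ≤ z ∧ 2 * (L * (m * (K5 ι A β * (z : ℝ) ^ (-(1 / 4) : ℝ)))) < η / 2 := by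
    have h1 : Tendsto (fun z : ℕ => 2 * ((L : ℝ) * (m * (K5 ι A β * (z : ℝ) ^ (-(1 / 4) : ℝ))))) atTop (𝓝 0) := by
      have := (((tendsto_rpow_quarter.const_mul (K5 ι A β)).const_mul m).const_mul (L : ℝ)).const_mul 2
      simpa using this
    have h2 := (h1.eventually_lt_const (half_pos hη)).and (eventually_ge_atTop 1)
    obtain ⟨z, h3, h4⟩ := h2.exists
    exact ⟨z, h4, h3⟩
  obtain ⟨z, hz1, hz2⟩ := hz
  -- the remaining terms
  have hR : Tendsto (fun H : ℕ => (L : ℝ) * (∑ k, (T H k + chg lam z (u H k) (w k))) +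
      |EB H (fun c : ι → ℤ => F (fun k => ∑ p ∈ PR z, lam c p (w k))) -
        ∫ ω, F (fun k => Y lam z (w k) ω) ∂(PP ι)|) atTop (𝓝 0) := by
    have h1 : Tendsto (fun H : ℕ => ∑ k, (T H k + chg lam z (u H k) (w k))) atTop (𝓝 0) := by
      have h0 : (0 : ℝ) = ∑ k : κ, (0 + 0) := by simp
      rw [h0]
      refine tendsto_finsetSum _ fun k _ => (hT0 k).add ?_
      exact chg_tendsto h z (fun H => u H k) (w k) (hw k) (hu k) ((hpos k).mono fun _ h => h.le)
    have h2 := equi (ι := ι) (PS z) (fun r => F (fun k => gY lam z (w k) r))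
    have h3 : (fun H : ℕ => EB H (fun c : ι → ℤ => F (fun k => gY lam z (w k) (redS (PS z) c)))) =
        fun H : ℕ => EB H (fun c : ι → ℤ => F (fun k => ∑ p ∈ PR z, lam c p (w k))) := by
      funext H
      congr 1
      funext c
      congr 1
      funext k
      exact gY_redS h z (w k) c
    rw [h3] at h2
    have h4 : (∫ ω, F (fun k => gY lam z (w k) ((PS z).restrict ω)) ∂(PP ι)) =
        ∫ ω, F (fun k => Y lam z (w k) ω) ∂(PP ι) := by
      congr 1
      funext ω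
      congr 1
      funext k
      exact (Y_eq z (w k) ω).symm
    rw [h4] at h2
    have h5 := (h2.sub_const (∫ ω, F (fun k => Y lam z (w k) ω) ∂(PP ι))).abs
    rw [sub_self, abs_zero] at h5
    have h6 := (h1.const_mul (L : ℝ)).add h5
    simpa using h6
  have hc := int_close w Z hZm hZi z _ (fun k => hZ k z hz1) F hF L hL
  have hev := ((hcmp z hz1).and (hR.eventually_lt_const (half_pos hη)))
  obtain ⟨H0, hH0⟩ := eventually_atTop.mp hev
  refine ⟨H0, fun H hH => ?_⟩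
  obtain ⟨h1, h2⟩ := hH0 H hH.le
  rw [Real.dist_eq]
  have h3 : ∑ k : κ, (T H k + K5 ι A β * (z : ℝ) ^ (-(1 / 4) : ℝ) + chg lam z (u H k) (w k)) =
      ∑ k, (T H k + chg lam z (u H k) (w k)) + m * (K5 ι A β * (z : ℝ) ^ (-(1 / 4) : ℝ)) := by
    have : ∀ k : κ, T H k + K5 ι A β * (z : ℝ) ^ (-(1 / 4) : ℝ) + chg lam z (u H k) (w k) =
        (T H k + chg lam z (u H k) (w k)) + K5 ι A β * (z : ℝ) ^ (-(1 / 4) : ℝ) := fun k => by ring
    rw [Finset.sum_congr rfl fun k _ => this k, Finset.sum_add_distrib, Finset.sum_const, nsmul_eq_mul,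
      Finset.card_univ]
  rw [h3, mul_add] at h1
  have h4 := abs_sub_le (EB H (fun c : ι → ℤ => F (fun k => ∑' p : Nat.Primes, lam c p (u H k))))
    (EB H (fun c : ι → ℤ => F (fun k => ∑ p ∈ PR z, lam c p (w k)))) (∫ ω, F (fun k => Z k ω) ∂(PP ι))
  have h5 := abs_sub_le (EB H (fun c : ι → ℤ => F (fun k => ∑ p ∈ PR z, lam c p (w k))))
    (∫ ω, F (fun k => Y lam z (w k) ω) ∂(PP ι)) (∫ ω, F (fun k => Z k ω) ∂(PP ι))
  linarith

end

end Pool.Agent.N534.LL
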