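import Pool.Agent.N534.LL.TailL

/-!
# The random variable in the limit
-/

set_option autoImplicit false

namespace Pool.Agent.N534.LL

open Finset MeasureTheory Filter Topology
open Pool.Agent.Y722.HS Pool.Agent.Y722.LS Pool.Agent.N534.LF Pool.Agent.N534.TL

/-- the primes up to `z` -/
noncomputable def PS (z : ℕ) : Finset Nat.Primes := (PR z).subtype Nat.Prime

theorem mem_PS {z : ℕ} {p : Nat.Primes} : p ∈ PS z ↔ (p : ℕ) ≤ z :=
  (Finset.mem_subtype (p := Nat.Prime) (s := PR z) (a := p)).trans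
      (mem_PR.trans ⟨fun h => h.1, fun h => ⟨h, p.2⟩⟩)

theorem sum_PS {M : Type*} [AddCommMonoid M] (z : ℕ) (f : ℕ → M) :
    ∑ p ∈ PS z, f (p : ℕ) = ∑ p ∈ PR z, f p :=
  Finset.sum_subtype_of_mem f fun p hp => (mem_PR.mp hp).2

section
variable {ι : Type} [Fintype ι] [DecidableEq ι]

omit [Fintype ι] [DecidableEq ι] in
/-- representatives -/
def liftp {p : ℕ} (r : ι → ZMod p) : ι → ℤ := fun i => ((r i).val : ℤ)

omit [Fintype ι] [DecidableEq ι] in
theorem red_liftp (p : ℕ) [NeZero p] (r : ι → ZMod p) : red p (liftp r) = r := by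
  funext i
  simp [red, liftp]

/-- A family of local logarithms that depend on the residue classes. -/
structure Sys (A β : ℝ) (N B : ∀ p : ℕ, (ι → ZMod p) → ℝ) (lam : (ι → ℤ) → ℕ → ℂ → ℂ) : Prop where
  fam : Fam A N B
  beta : 0 ≤ β
  loc : ∀ c, Loc β N B c (lam c)
  red : ∀ p : ℕ, p.Prime → ∀ c c' : ι → ℤ, red p c = red p c' → lam c p = lam c' p
  cont : ∀ p : ℕ, p.Prime → ∀ c : ι → ℤ, ContinuousOn (lam c p) {u : ℂ | 0 ≤ u.re}

variable {A β : ℝ} {N B : ∀ p : ℕ, (ι → ZMod p) → ℝ} {lam : (ι → ℤ) → ℕ → ℂ → ℂ}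

omit [Fintype ι] [DecidableEq ι] in
/-- the sum of the random local logarithms up to `z` -/
noncomputable def Y (lam : (ι → ℤ) → ℕ → ℂ → ℂ) (z : ℕ) (u : ℂ)
    (ω : ∀ p : Nat.Primes, ι → ZMod (p : ℕ)) : ℂ :=
  ∑ p ∈ PS z, lam (liftp (ω p)) (p : ℕ) u

/-- the same as a function on a finite set -/
noncomputable def gY (lam : (ι → ℤ) → ℕ → ℂ → ℂ) (z : ℕ) (u : ℂ)
    (r : ∀ p : PS z, ι → ZMod ((p : Nat.Primes) : ℕ)) : ℂ :=
  ∑ p : PS z, lam (liftp (r p)) ((p : Nat.Primes) : ℕ) u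

omit [Fintype ι] [DecidableEq ι] in
theorem Y_eq (z : ℕ) (u : ℂ) (ω : ∀ p : Nat.Primes, ι → ZMod (p : ℕ)) :
    Y lam z u ω = gY lam z u ((PS z).restrict ω) := by
  unfold Y gY
  rw [← Finset.sum_coe_sort]
  rfl

theorem Y_measurable (z : ℕ) (u : ℂ) : Measurable (Y lam z u) := by
  have h : Y lam z u = gY lam z u ∘ (PS z).restrict := funext fun ω => Y_eq z u ω
  rw [h]
  exact (measurable_of_finite _).comp (Finset.measurable_restrict _)

theorem Y_integrable (z : ℕ) (u : ℂ) : Integrable (Y lam z u) (PP ι) := by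
  obtain ⟨C, hC⟩ := (Set.finite_range fun r => ‖gY lam z u r‖).bddAbove
  refine Integrable.of_bound (Y_measurable z u).aestronglyMeasurable C (Eventually.of_forall fun ω => ?_)
  rw [Y_eq]
  exact hC ⟨_, rfl⟩

theorem gY_redS (h : Sys A β N B lam) (z : ℕ) (u : ℂ) (c : ι → ℤ) :
    gY lam z u (redS (PS z) c) = ∑ p ∈ PR z, lam c p u := by
  unfold gY
  rw [← sum_PS z (fun p => lam c p u), ← Finset.sum_coe_sort (PS z) (fun p : Nat.Primes => lam c (p : ℕ) u)]
  refine Finset.sum_congr rfl fun p _ => ?_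
  have h1 := h.red ((p : Nat.Primes) : ℕ) p.1.2 (liftp (redS (PS z) c p)) c (by
    rw [red_liftp]
    rfl)
  rw [h1]

/-- The sum over the primes above `z`, for random residue classes. -/
theorem int_diff (h : Sys A β N B lam) (u : ℂ) (hu : 0 ≤ u.re) (z y : ℕ) (hz : 1 ≤ z) (hzy : z ≤ y) :
    ∫ ω, ‖Y lam y u ω - Y lam z u ω‖ ∂(PP ι) ≤ K5 ι A β * (z : ℝ) ^ (-(1 / 4) : ℝ) := by
  classical
  have e1 : ∀ ω : ∀ p : Nat.Primes, ι → ZMod (p : ℕ), ‖Y lam y u ω - Y lam z u ω‖ =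
      (fun r : ∀ p : PS y, ι → ZMod ((p : Nat.Primes) : ℕ) =>
        ‖∑ p : PS y, if z < ((p : Nat.Primes) : ℕ) then lam (liftp (r p)) ((p : Nat.Primes) : ℕ) u else 0‖)
        ((PS y).restrict ω) := by
    intro ω
    have e2 : Y lam y u ω - Y lam z u ω =
        ∑ p ∈ PS y, if z < (p : ℕ) then lam (liftp (ω p)) (p : ℕ) u else 0 := by
      unfold Y
      rw [← Finset.sum_filter]
      have e3 : PS z = (PS y).filter (fun p : Nat.Primes => ¬ z < (p : ℕ)) := by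
        ext p
        rw [Finset.mem_filter, mem_PS, mem_PS, not_lt]
        exact ⟨fun h => ⟨h.trans hzy, h⟩, fun h => h.2⟩
      have e4 := Finset.sum_filter_add_sum_filter_not (PS y) (fun p : Nat.Primes => z < (p : ℕ))
        (fun p : Nat.Primes => lam (liftp (ω p)) (p : ℕ) u)
      rw [← e3] at e4
      rw [← e4, add_sub_cancel_right]
    rw [e2, ← Finset.sum_coe_sort]
    rfl
  simp_rw [e1]
  have h1 := equi (ι := ι) (PS y) (fun r : ∀ p : PS y, ι → ZMod ((p : Nat.Primes) : ℕ) =>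
        ‖∑ p : PS y, if z < ((p : Nat.Primes) : ℕ) then lam (liftp (r p)) ((p : Nat.Primes) : ℕ) u else 0‖)
  refine le_of_tendsto h1 ?_
  filter_upwards [eventually_ge_atTop (y ^ 4)] with H hH
  have e5 : (fun c : ι → ℤ => ‖∑ p : PS y, if z < ((p : Nat.Primes) : ℕ) then
      lam (liftp (redS (PS y) c p)) ((p : Nat.Primes) : ℕ) u else 0‖) =
      fun c => ‖∑ p ∈ (PR y).filter (fun p => z < p), lam c p u‖ := by
    funext c
    congr 1
    rw [Finset.sum_filter, ← sum_PS y (fun p => if z < p then lam c p u else 0),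
      ← Finset.sum_coe_sort (PS y) (fun p : Nat.Primes => if z < (p : ℕ) then lam c (p : ℕ) u else 0)]
    refine Finset.sum_congr rfl fun p _ => ?_
    have h2 := h.red ((p : Nat.Primes) : ℕ) p.1.2 (liftp (redS (PS y) c p)) c (by
      rw [red_liftp]
      rfl)
    rw [h2]
  rw [e5]
  exact tailL h.fam h.beta lam h.loc u hu H y z hz hH

theorem tendsto_rpow_quarter : Tendsto (fun z : ℕ => (z : ℝ) ^ (-(1 / 4) : ℝ)) atTop (𝓝 0) :=
  (tendsto_rpow_neg_atTop (by norm_num : (0 : ℝ) < 1 / 4)).comp tendsto_natCast_atTop_atTop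

/-- **The limit in the mean.** -/
theorem exists_Z (h : Sys A β N B lam) (u : ℂ) (hu : 0 ≤ u.re) :
    ∃ Z : (∀ p : Nat.Primes, ι → ZMod (p : ℕ)) → ℂ, Measurable Z ∧ Integrable Z (PP ι) ∧
      ∀ z : ℕ, 1 ≤ z → ∫ ω, ‖Y lam z u ω - Z ω‖ ∂(PP ι) ≤ K5 ι A β * (z : ℝ) ^ (-(1 / 4) : ℝ) := by
  set f : ℕ → ((∀ p : Nat.Primes, ι → ZMod (p : ℕ)) →₁[PP ι] ℂ) :=
    fun z => (Y_integrable (lam := lam) z u).toL1 with hf
  have hnorm : ∀ z y : ℕ, ‖f y - f z‖ = ∫ ω, ‖Y lam y u ω - Y lam z u ω‖ ∂(PP ι) := by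
    intro z y
    rw [hf]
    simp only
    rw [← Integrable.toL1_sub, L1.norm_of_fun_eq_integral_norm]
    rfl
  have hcau : CauchySeq (fun z => f (z + 1)) := by
    refine cauchySeq_of_le_tendsto_0 (fun z => 2 * (K5 ι A β * ((z + 1 : ℕ) : ℝ) ^ (-(1 / 4) : ℝ))) ?_ ?_
    · intro n m k hn hm
      rw [dist_eq_norm]
      have h1 := int_diff h u hu (k + 1) (n + 1) (by omega) (by omega)
      have h2 := int_diff h u hu (k + 1) (m + 1) (by omega) (by omega)
      rw [← hnorm] at h1 h2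
      have h3 : f (n + 1) - f (m + 1) = (f (n + 1) - f (k + 1)) - (f (m + 1) - f (k + 1)) := by abel
      rw [h3]
      have h4 := norm_sub_le (f (n + 1) - f (k + 1)) (f (m + 1) - f (k + 1))
      linarith
    · have h5 := (tendsto_rpow_quarter.comp (tendsto_add_atTop_nat 1)).const_mul (K5 ι A β)
      have h6 := h5.const_mul 2
      simpa using h6
  obtain ⟨Z1, hZ1⟩ := cauchySeq_tendsto_of_complete hcau
  have hZ2 : Tendsto f atTop (𝓝 Z1) := (tendsto_add_atTop_iff_nat 1).mp hZ1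
  have hZint : Integrable (Z1 : _ → ℂ) (PP ι) := L1.integrable_coeFn Z1
  refine ⟨Z1, (Lp.stronglyMeasurable Z1).measurable, hZint, fun z hz => ?_⟩
  have h1 : ‖f z - Z1‖ ≤ K5 ι A β * (z : ℝ) ^ (-(1 / 4) : ℝ) := by
    have h2 : Tendsto (fun y => ‖f z - f y‖) atTop (𝓝 ‖f z - Z1‖) := (hZ2.const_sub (f z)).norm
    refine le_of_tendsto h2 ?_
    filter_upwards [eventually_ge_atTop z] with y hy
    rw [norm_sub_rev, hnorm]
    exact int_diff h u hu z y hz hy
  have h2 : ‖f z - Z1‖ = ∫ ω, ‖Y lam z u ω - Z1 ω‖ ∂(PP ι) := by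
    have h3 : Z1 = hZint.toL1 := (Integrable.toL1_coeFn Z1 hZint).symm
    conv_lhs => rw [h3]
    rw [hf]
    simp only
    rw [← Integrable.toL1_sub, L1.norm_of_fun_eq_integral_norm]
    rfl
  rwa [h2] at h1

end

end Pool.Agent.N534.LL
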