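import Pool.Agent.N534.LF.Maj

/-!
# Independent uniform residue classes, and the residue classes of the vectors in a large box
-/

set_option autoImplicit false

namespace Pool.Agent.N534.LL

open Finset MeasureTheory Filter Topology
open Pool.Agent.Y722.HS Pool.Agent.Y722.LS

instance neZeroPrimes (p : Nat.Primes) : NeZero (p : ℕ) := ⟨p.2.ne_zero⟩

section
variable (ι : Type) [Fintype ι] [DecidableEq ι]

/-- The uniform probability measure on the vectors modulo `p`. -/
noncomputable def unif (p : Nat.Primes) : Measure (ι → ZMod (p : ℕ)) :=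
  (PMF.uniformOfFintype (ι → ZMod (p : ℕ))).toMeasure

instance (p : Nat.Primes) : IsProbabilityMeasure (unif ι p) := by
  unfold unif
  infer_instance

/-- Independent uniform residue classes modulo all primes. -/
noncomputable def PP : Measure (∀ p : Nat.Primes, ι → ZMod (p : ℕ)) :=
  Measure.infinitePi (fun p => unif ι p)

instance : IsProbabilityMeasure (PP ι) := by
  unfold PP
  infer_instance

end

section
variable {ι : Type} [Fintype ι] [DecidableEq ι]

theorem EB_lim (m : ℕ) [NeZero m] (f : (ι → ZMod m) → ℝ) :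
    Tendsto (fun H : ℕ => EB H (fun c : ι → ℤ => f (red m c))) atTop (𝓝 (EM m f)) := by
  rw [tendsto_iff_norm_sub_tendsto_zero]
  have h1 : Tendsto (fun H : ℕ => 2 ^ Fintype.card ι * ((m : ℝ) * (1 : ℕ) / (2 * H + 1)) *
      (EM m (fun r => |f r|) * EM (ι := ι) 1 (fun _ => |(1 : ℝ)|))) atTop (𝓝 0) := by
    have h2 : Tendsto (fun H : ℕ => (2 * (H : ℝ) + 1)) atTop atTop := by
      apply tendsto_atTop_add_const_right
      exact (tendsto_natCast_atTop_atTop).const_mul_atTop (by norm_num)
    have h3 := (tendsto_const_nhds (x := (m : ℝ) * (1 : ℕ))).div_atTop h2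
    have h4 := (h3.const_mul ((2 : ℝ) ^ Fintype.card ι)).mul_const
      (EM m (fun r => |f r|) * EM (ι := ι) 1 (fun _ => |(1 : ℝ)|))
    simpa using h4
  refine squeeze_zero' (Eventually.of_forall fun _ => norm_nonneg _) ?_ h1
  filter_upwards [eventually_ge_atTop m] with H hH
  have h5 := EB_two (ι := ι) H m 1 (Nat.coprime_one_right m) (by omega) f (fun _ => 1)
  rw [EM_const (ι := ι) 1 1] at h5
  simp only [mul_one] at h5
  rw [Real.norm_eq_abs]
  simpa using h5

/-- the residue classes of an integer vector -/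
def redS (S : Finset Nat.Primes) (c : ι → ℤ) : ∀ p : S, ι → ZMod ((p : Nat.Primes) : ℕ) :=
  fun p => red ((p : Nat.Primes) : ℕ) c

theorem pairwise_coprime (S : Finset Nat.Primes) :
    Pairwise (Function.onFun Nat.Coprime fun p : S => ((p : Nat.Primes) : ℕ)) := by
  intro p q hpq
  rw [Function.onFun]
  refine (Nat.coprime_primes p.1.2 q.1.2).mpr fun h => hpq ?_
  exact Subtype.ext (Subtype.ext h)

/-- the modulus -/
noncomputable def md (S : Finset Nat.Primes) : ℕ := ∏ p : S, ((p : Nat.Primes) : ℕ)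

instance (S : Finset Nat.Primes) : NeZero (md S) :=
  ⟨Finset.prod_ne_zero_iff.mpr fun p _ => p.1.2.ne_zero⟩

/-- The Chinese remainder theorem for vectors. -/
noncomputable def crt (S : Finset Nat.Primes) :
    (ι → ZMod (md S)) ≃ (∀ p : S, ι → ZMod ((p : Nat.Primes) : ℕ)) :=
  (Equiv.arrowCongr (Equiv.refl ι)
    (ZMod.prodEquivPi (fun p : S => ((p : Nat.Primes) : ℕ)) (pairwise_coprime S)).toEquiv).trans
    (Equiv.piComm _)

theorem crt_red (S : Finset Nat.Primes) (c : ι → ℤ) : crt S (red (md S) c) = redS S c := by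
  funext p i
  have h1 : crt S (red (md S) c) p i =
      (ZMod.prodEquivPi (fun p : S => ((p : Nat.Primes) : ℕ)) (pairwise_coprime S)) (red (md S) c i) p := rfl
  rw [h1]
  unfold red redS
  have h2 : (ZMod.prodEquivPi (fun p : S => ((p : Nat.Primes) : ℕ)) (pairwise_coprime S))
      ((c i : ℤ) : ZMod (∏ p : S, ((p : Nat.Primes) : ℕ))) = ((c i : ℤ) : ∀ p : S, ZMod ((p : Nat.Primes) : ℕ)) :=
    map_intCast _ _
  have h3 := congrFun h2 p
  rw [Pi.intCast_apply] at h3
  exact h3

theorem pi_unif (S : Finset Nat.Primes) (g : (∀ p : S, ι → ZMod ((p : Nat.Primes) : ℕ)) → ℝ) :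
    ∫ r, g r ∂(Measure.pi fun p : S => unif ι p) =
      (∑ r, g r) / Fintype.card (∀ p : S, ι → ZMod ((p : Nat.Primes) : ℕ)) := by
  rw [integral_fintype (hf := Integrable.of_finite), Finset.sum_div]
  refine Finset.sum_congr rfl fun r _ => ?_
  have h1 : (Measure.pi fun p : S => unif ι p).real {r} =
      ((Fintype.card (∀ p : S, ι → ZMod ((p : Nat.Primes) : ℕ)) : ℝ))⁻¹ := by
    rw [Measure.real, Measure.pi_singleton]
    have h2 : ∀ p : S, (unif ι p) {r p} = ((Fintype.card (ι → ZMod ((p : Nat.Primes) : ℕ)) : ENNReal))⁻¹ := by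
      intro p
      unfold unif
      rw [PMF.toMeasure_apply_singleton _ _ (measurableSet_singleton _), PMF.uniformOfFintype_apply]
    rw [Finset.prod_congr rfl fun p _ => h2 p, ENNReal.toReal_prod, Fintype.card_pi]
    push_cast
    rw [← Finset.prod_inv_distrib]
    refine Finset.prod_congr rfl fun p _ => ?_
    rw [ENNReal.toReal_inv]
    simp
  rw [h1, smul_eq_mul]
  ring

theorem EM_crt (S : Finset Nat.Primes) (g : (∀ p : S, ι → ZMod ((p : Nat.Primes) : ℕ)) → ℝ) :
    EM (md S) (fun r : ι → ZMod (md S) => g (crt S r)) =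
      (∑ r, g r) / Fintype.card (∀ p : S, ι → ZMod ((p : Nat.Primes) : ℕ)) := by
  unfold EM
  have h1 : ∑ r : ι → ZMod (md S), g (crt S r) = ∑ r, g r := (crt S).sum_comp g
  rw [h1]
  congr 1
  rw [← Fintype.card_congr (crt (ι := ι) S), Fintype.card_pi, Finset.prod_const, Finset.card_univ, ZMod.card]
  push_cast
  rfl

/-- **Equidistribution**: the residue classes of the vectors in a large box are independent and uniform. -/
theorem equi (S : Finset Nat.Primes) (g : (∀ p : S, ι → ZMod ((p : Nat.Primes) : ℕ)) → ℝ) :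
    Tendsto (fun H : ℕ => EB H (fun c : ι → ℤ => g (redS S c))) atTop
      (𝓝 (∫ ω, g (S.restrict ω) ∂(PP ι))) := by
  have h1 : ∫ ω, g (S.restrict ω) ∂(PP ι) = EM (md S) (fun r : ι → ZMod (md S) => g (crt S r)) := by
    have h0 := integral_restrict_infinitePi (ι := Nat.Primes) (X := fun p : Nat.Primes => ι → ZMod (p : ℕ))
      (μ := fun p => unif ι p) (s := S) (f := g) (measurable_of_finite g).aestronglyMeasurable
    rw [pi_unif, ← EM_crt] at h0
    exact h0
  rw [h1]
  have h2 := EB_lim (md S) (fun r : ι → ZMod (md S) => g (crt S r))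
  simpa only [crt_red] using h2

end

end Pool.Agent.N534.LL
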