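import Pool.Agent.N534.LL.Prob

/-!
# The primes above `z` contribute little in the mean
-/

set_option autoImplicit false

namespace Pool.Agent.N534.LL

open Finset MeasureTheory Filter Topology
open Pool.Agent.Y722.HS Pool.Agent.Y722.LS Pool.Agent.N534.LF

variable {ι : Type} [Fintype ι] [DecidableEq ι]

/-- the sum of `n^{-5/4}` -/
noncomputable def S5 : ℝ := ∑' k : ℕ, 1 / (k : ℝ) ^ ((5 : ℝ) / 4)

theorem sum_le_S5 (s : Finset ℕ) : ∑ p ∈ s, 1 / (p : ℝ) ^ ((5 : ℝ) / 4) ≤ S5 :=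
  (Real.summable_one_div_nat_rpow.mpr (by norm_num)).sum_le_tsum s fun _ _ => by positivity

theorem S5_nonneg : 0 ≤ S5 := tsum_nonneg fun _ => by positivity

/-- the sum over the primes above `z` -/
theorem sum_above (z y : ℕ) (hz : 1 ≤ z) :
    ∑ p ∈ (PR y).filter (fun p => z < p), 1 / (p : ℝ) ^ ((3 : ℝ) / 2) ≤ S5 * (z : ℝ) ^ (-(1 / 4) : ℝ) := by
  have hz0 : (0 : ℝ) < z := by exact_mod_cast hz
  have h1 : ∀ p ∈ (PR y).filter (fun p => z < p), 1 / (p : ℝ) ^ ((3 : ℝ) / 2) ≤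
      (1 / (p : ℝ) ^ ((5 : ℝ) / 4)) * (z : ℝ) ^ (-(1 / 4) : ℝ) := by
    intro p hp
    rw [Finset.mem_filter] at hp
    have hp0 : (0 : ℝ) < p := by exact_mod_cast (mem_PR.mp hp.1).2.pos
    have h2 : (p : ℝ) ^ (-(1 / 4) : ℝ) ≤ (z : ℝ) ^ (-(1 / 4) : ℝ) :=
      Real.rpow_le_rpow_of_nonpos hz0 (by exact_mod_cast hp.2.le) (by norm_num)
    have h3 : 1 / (p : ℝ) ^ ((3 : ℝ) / 2) = (1 / (p : ℝ) ^ ((5 : ℝ) / 4)) * (p : ℝ) ^ (-(1 / 4) : ℝ) := by
      rw [one_div, one_div, ← Real.rpow_neg hp0.le, ← Real.rpow_neg hp0.le, ← Real.rpow_add hp0]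
      norm_num
    rw [h3]
    gcongr
  refine (Finset.sum_le_sum h1).trans ?_
  rw [← Finset.sum_mul]
  gcongr
  exact sum_le_S5 _

variable {A β : ℝ} {N B : ∀ p : ℕ, (ι → ZMod p) → ℝ}

/-- the constant of the tail -/
noncomputable def K5 (ι : Type) [Fintype ι] (A β : ℝ) : ℝ :=
  2 * K1 ι A + 1 + (2 ^ Fintype.card ι * ((2 + β) * A) + β) * S5

omit [DecidableEq ι] in
theorem K1_nonneg (hA : 1 ≤ A) : 0 ≤ K1 ι A := by
  have := SS_nonneg
  unfold K1
  positivity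

theorem K5_nonneg (hA : 1 ≤ A) (hβ : 0 ≤ β) : 0 ≤ K5 ι A β := by
  have := K1_nonneg (ι := ι) hA
  have := S5_nonneg
  unfold K5
  positivity

theorem WW_tail (h : Fam A N B) (H y z : ℕ) (hz : 1 ≤ z) (hy : y ^ 4 ≤ H) (w : ℕ → ℝ)
    (hw : ∀ p ∈ PR y, |w p| ≤ 1) :
    EB H (fun c : ι → ℤ => WW N y (fun p => if z < p then w p else 0) c ^ 2) ≤
      K1 ι A * (z : ℝ) ^ (-(1 / 2) : ℝ) := by
  have hz0 : (0 : ℝ) < z := by exact_mod_cast hz
  set t : ℝ := (z : ℝ) ^ ((1 : ℝ) / 4) with ht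
  have ht0 : 0 < t := by positivity
  have h1 := h.EB_WW_sq H y hy (fun p => t * (if z < p then w p else 0)) (by
    intro p hp
    have hp1 : (1 : ℝ) ≤ p := by exact_mod_cast (mem_PR.mp hp).2.one_lt.le
    split_ifs with hzp
    · rw [abs_mul, abs_of_pos ht0]
      have h2 : t ≤ (p : ℝ) ^ ((1 : ℝ) / 4) :=
        Real.rpow_le_rpow hz0.le (by exact_mod_cast hzp.le) (by norm_num)
      have h3 := hw p hp
      have h4 : 0 ≤ (p : ℝ) ^ ((1 : ℝ) / 4) := by positivity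
      calc t * |w p| ≤ (p : ℝ) ^ ((1 : ℝ) / 4) * 1 := by gcongr
        _ ≤ _ := by linarith
    · rw [mul_zero, abs_zero]
      positivity)
  have h2 : (fun c : ι → ℤ => WW N y (fun p => t * (if z < p then w p else 0)) c ^ 2) =
      fun c => t ^ 2 * WW N y (fun p => if z < p then w p else 0) c ^ 2 := by
    funext c
    rw [← mul_pow]
    congr 1
    unfold WW
    rw [Finset.mul_sum]
    exact Finset.sum_congr rfl fun p _ => by ring
  rw [h2, Pool.Agent.Y722.HS.EB_mul] at h1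
  have h3 : (z : ℝ) ^ (-(1 / 2) : ℝ) = (t ^ 2)⁻¹ := by
    rw [ht, ← Real.rpow_natCast, ← Real.rpow_mul hz0.le, ← Real.rpow_neg hz0.le]
    norm_num
  rw [h3, ← div_eq_mul_inv, le_div_iff₀ (by positivity)]
  linarith

/-- **The tail in the mean.** -/
theorem tailL (h : Fam A N B) (hβ : 0 ≤ β) (lam : (ι → ℤ) → ℕ → ℂ → ℂ)
    (hlam : ∀ c, Loc β N B c (lam c)) (u : ℂ) (hu : 0 ≤ u.re) (H y z : ℕ) (hz : 1 ≤ z) (hy : y ^ 4 ≤ H) :
    EB H (fun c : ι → ℤ => ‖∑ p ∈ (PR y).filter (fun p => z < p), lam c p u‖) ≤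
      K5 ι A β * (z : ℝ) ^ (-(1 / 4) : ℝ) := by
  have hz0 : (0 : ℝ) < z := by exact_mod_cast hz
  have hA := h.A0
  have hyH : y ≤ 2 * H + 1 := by
    rcases Nat.eq_zero_or_pos y with h0 | h0
    · omega
    · have h1 : y ^ 1 ≤ y ^ 4 := Nat.pow_le_pow_right h0 (by norm_num)
      rw [pow_one] at h1
      omega
  set a : ℝ := (z : ℝ) ^ ((1 : ℝ) / 4) with ha
  have ha0 : 0 < a := by positivity
  have hainv : (z : ℝ) ^ (-(1 / 4) : ℝ) = a⁻¹ := by
    rw [ha, ← Real.rpow_neg hz0.le]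
  have hainv2 : (z : ℝ) ^ (-(1 / 2) : ℝ) = (a ^ 2)⁻¹ := by
    rw [ha, ← Real.rpow_natCast, ← Real.rpow_mul hz0.le, ← Real.rpow_neg hz0.le]
    norm_num
  set X : (ι → ℤ) → ℝ := fun c => WW N y (fun p => if z < p then ((p : ℂ) ^ (-u)).re else 0) c ^ 2 +
    WW N y (fun p => if z < p then ((p : ℂ) ^ (-u)).im else 0) c ^ 2 with hX
  have hnorm : ∀ p ∈ PR y, ‖(p : ℂ) ^ (-u)‖ ≤ 1 := by
    intro p hp
    have hpp := (mem_PR.mp hp).2
    rw [Complex.norm_natCast_cpow_of_pos hpp.pos]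
    exact Real.rpow_le_one_of_one_le_of_nonpos (by exact_mod_cast hpp.one_lt.le) (by simpa using hu)
  have h1 : EB H X ≤ 2 * K1 ι A * (a ^ 2)⁻¹ := by
    rw [hX, EB_add]
    have e1 := WW_tail h H y z hz hy (fun p => ((p : ℂ) ^ (-u)).re)
      fun p hp => (Complex.abs_re_le_norm _).trans (hnorm p hp)
    have e2 := WW_tail h H y z hz hy (fun p => ((p : ℂ) ^ (-u)).im)
      fun p hp => (Complex.abs_im_le_norm _).trans (hnorm p hp)
    rw [hainv2] at e1 e2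
    linarith
  have h2 : ∀ c : ι → ℤ, ‖∑ p ∈ (PR y).filter (fun p => z < p), lam c p u‖ ≤
      (a * X c + a⁻¹) + ∑ p ∈ (PR y).filter (fun p => z < p), (bb N B β p (red p c) +
        β * (1 / (p : ℝ) ^ ((3 : ℝ) / 2))) := by
    intro c
    have e1 : ∑ p ∈ (PR y).filter (fun p => z < p), lam c p u =
        (∑ p ∈ (PR y).filter (fun p => z < p), (p : ℂ) ^ (-u) * (N p (red p c) : ℂ)) +
        ∑ p ∈ (PR y).filter (fun p => z < p), (lam c p u - (p : ℂ) ^ (-u) * (N p (red p c) : ℂ)) := by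
      rw [← Finset.sum_add_distrib]
      exact Finset.sum_congr rfl fun p _ => by ring
    rw [e1]
    refine (norm_add_le _ _).trans (add_le_add ?_ ?_)
    · set W : ℂ := ∑ p ∈ (PR y).filter (fun p => z < p), (p : ℂ) ^ (-u) * (N p (red p c) : ℂ) with hW
      have e2 : ‖W‖ ^ 2 = X c := by
        rw [Complex.sq_norm, Complex.normSq_apply, hX]
        have e3 : W.re = WW N y (fun p => if z < p then ((p : ℂ) ^ (-u)).re else 0) c := by
          rw [hW, Complex.re_sum, Finset.sum_filter]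
          unfold WW
          refine Finset.sum_congr rfl fun p _ => ?_
          by_cases hzp : z < p
          · simp only [if_pos hzp, Complex.re_mul_ofReal]
          · simp only [if_neg hzp, zero_mul, Complex.zero_re]
        have e4 : W.im = WW N y (fun p => if z < p then ((p : ℂ) ^ (-u)).im else 0) c := by
          rw [hW, Complex.im_sum, Finset.sum_filter]
          unfold WW
          refine Finset.sum_congr rfl fun p _ => ?_
          by_cases hzp : z < p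
          · simp only [if_pos hzp, Complex.im_mul_ofReal]
          · simp only [if_neg hzp, zero_mul, Complex.zero_im]
        rw [e3, e4]
        ring
      rw [← e2]
      have e5 : 0 ≤ (a * ‖W‖ - 1) ^ 2 := sq_nonneg _
      have e6 : ‖W‖ * a ≤ (a * ‖W‖ ^ 2 + a⁻¹) * a := by
        have : (a * ‖W‖ ^ 2 + a⁻¹) * a = a ^ 2 * ‖W‖ ^ 2 + 1 := by field_simp
        rw [this]
        nlinarith [norm_nonneg W]
      exact le_of_mul_le_mul_right e6 ha0
    · refine (norm_sum_le _ _).trans (Finset.sum_le_sum fun p hp => ?_)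
      exact (hlam c).near p (mem_PR.mp (Finset.mem_filter.mp hp).1).2 u hu
  refine (EB_mono H _ _ h2).trans ?_
  rw [EB_add, EB_add, Pool.Agent.Y722.HS.EB_mul, EB_const, EB_sum]
  have h3 : ∀ p ∈ (PR y).filter (fun p => z < p), EB H (fun c : ι → ℤ => bb N B β p (red p c) +
      β * (1 / (p : ℝ) ^ ((3 : ℝ) / 2))) ≤
      (2 ^ Fintype.card ι * ((2 + β) * A) + β) * (1 / (p : ℝ) ^ ((3 : ℝ) / 2)) := by
    intro p hp
    have hpp := (mem_PR.mp (Finset.mem_filter.mp hp).1)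
    have := Fact.mk hpp.2
    rw [EB_add, EB_const]
    have e1 := EB_le (ι := ι) H p (hpp.1.trans hyH) (fun r => bb N B β p r)
      (fun r => h.bb_nonneg hβ p r)
    have e2 := mul_le_mul_of_nonneg_left (h.EM_bb hβ p) (by positivity : (0 : ℝ) ≤ 2 ^ Fintype.card ι)
    calc _ ≤ 2 ^ Fintype.card ι * ((2 + β) * A * (1 / (p : ℝ) ^ ((3 : ℝ) / 2))) +
          β * (1 / (p : ℝ) ^ ((3 : ℝ) / 2)) := by linarith
      _ = _ := by ring
  have h4 : ∑ p ∈ (PR y).filter (fun p => z < p), EB H (fun c : ι → ℤ => bb N B β p (red p c) +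
      β * (1 / (p : ℝ) ^ ((3 : ℝ) / 2))) ≤
      (2 ^ Fintype.card ι * ((2 + β) * A) + β) * (S5 * (z : ℝ) ^ (-(1 / 4) : ℝ)) := by
    refine (Finset.sum_le_sum h3).trans ?_
    rw [← Finset.mul_sum]
    exact mul_le_mul_of_nonneg_left (sum_above z y hz) (by positivity)
  have h5 : a * EB H X ≤ 2 * K1 ι A * a⁻¹ := by
    calc a * EB H X ≤ a * (2 * K1 ι A * (a ^ 2)⁻¹) := by gcongr
      _ = _ := by field_simp
  rw [hainv] at h4 ⊢
  unfold K5
  calc _ ≤ 2 * K1 ι A * a⁻¹ + a⁻¹ +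
        (2 ^ Fintype.card ι * ((2 + β) * A) + β) * (S5 * a⁻¹) := by linarith
    _ = _ := by ring

end Pool.Agent.N534.LL
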